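import Pool.Agent.Helper61.MI.Defs

set_option autoImplicit false

/-!
# Monomial valuations on `ℂ(x₀,x₁,x₂)`

Module B of the multiplier ideals of 22 points (helper61's blueprint): for linearly independent
linear forms `ℓ₀, ℓ₁, ℓ₂` and weights `w` with `w i₀ = 1` the monomial valuation with
`v(ℓᵢ) = wᵢ` is divisorial with log discrepancy at most `w₀ + w₁ + w₂`.
-/

noncomputable section

namespace Pool.Agent.Helper61.MI

open MvPolynomial

namespace MonVal

/-! ### The derivations -/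

lemma dualHomK_algebraMap (i : Fin 3) (f : S) :
    dualHomK i (algebraMap S K f) = dualHom i f := by
  unfold dualHomK
  rw [IsLocalization.lift_eq]
  rfl

lemma fst_dualHomK (i : Fin 3) (f : K) : TrivSqZeroExt.fst (dualHomK i f) = f := by
  have h : (((TrivSqZeroExt.fstHom ℂ K K).toRingHom).comp (dualHomK i)) = RingHom.id K := by
    apply IsLocalization.ringHom_ext (nonZeroDivisors S)
    apply RingHom.ext
    intro f
    show TrivSqZeroExt.fst (dualHomK i (algebraMap S K f)) = algebraMap S K f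
    rw [dualHomK_algebraMap, fst_dualHom]
  exact DFunLike.congr_fun h f

lemma pd_add' (i : Fin 3) (f g : K) : pd i (f + g) = pd i f + pd i g := by
  simp [pd]

lemma pd_mul' (i : Fin 3) (f g : K) : pd i (f * g) = f * pd i g + g * pd i f := by
  simp only [pd, map_mul, TrivSqZeroExt.snd_mul, fst_dualHomK, smul_eq_mul,
    MulOpposite.smul_eq_mul_unop, MulOpposite.unop_op]
  ring

lemma pd_algebraMap' (i : Fin 3) (f : S) :
    pd i (algebraMap S K f) = algebraMap S K (pderiv i f) := by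
  unfold pd
  rw [dualHomK_algebraMap]
  induction f using MvPolynomial.induction_on with
  | C a =>
    rw [pderiv_C, map_zero, show (C a : S) = algebraMap ℂ S a from rfl, AlgHom.commutes]
    rfl
  | add p q hp hq => simp [hp, hq]
  | mul_X p j hp =>
    rw [map_mul, TrivSqZeroExt.snd_mul, fst_dualHom, fst_dualHom, hp, pderiv_mul, map_add,
      map_mul, map_mul]
    have : TrivSqZeroExt.snd (dualHom i (X j)) = algebraMap S K (pderiv i (X j : S)) := by
      by_cases hj : j = i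
      · subst hj; simp [dualHom]
      · simp [dualHom, hj, pderiv_X_of_ne hj]
    rw [this]
    simp only [smul_eq_mul, MulOpposite.smul_eq_mul_unop, MulOpposite.unop_op]
    ring

/-! ### Linear coordinates -/

/-- The substitution `Xᵢ ↦ lin (A i)`. -/
def sub (A : Fin 3 → Fin 3 → ℂ) : S →ₐ[ℂ] S := aeval fun i => lin (A i)

lemma sub_X (A : Fin 3 → Fin 3 → ℂ) (i : Fin 3) : sub A (X i) = lin (A i) := by
  simp [sub]

lemma sub_lin (A : Fin 3 → Fin 3 → ℂ) (b : Fin 3 → ℂ) :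
    sub A (lin b) = lin fun j => ∑ k, b k * A k j := by
  simp only [lin, map_sum, map_mul, sub_X]
  have h1 : ∀ c : ℂ, sub A (C c) = C c := fun c => by
    rw [show (C c : S) = algebraMap ℂ S c from rfl, AlgHom.commutes]
  simp only [h1, Finset.mul_sum, Finset.sum_mul]
  rw [Finset.sum_comm]
  refine Finset.sum_congr rfl fun j _ => Finset.sum_congr rfl fun k _ => ?_
  rw [mul_assoc]

/-- The inverse matrix. -/
def inv (ℓ : Fin 3 → Fin 3 → ℂ) : Fin 3 → Fin 3 → ℂ :=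
  fun i j => ((Matrix.of ℓ)⁻¹ : Matrix (Fin 3) (Fin 3) ℂ) i j

lemma mul_inv {ℓ : Fin 3 → Fin 3 → ℂ} (hℓ : LinearIndependent ℂ ℓ) (i j : Fin 3) :
    ∑ k, ℓ i k * inv ℓ k j = if i = j then 1 else 0 := by
  have h : IsUnit (Matrix.of ℓ) := Matrix.linearIndependent_rows_iff_isUnit.1 hℓ
  have h2 := Matrix.mul_nonsing_inv (Matrix.of ℓ) ((Matrix.isUnit_iff_isUnit_det _).1 h)
  have := congrFun (congrFun h2 i) j
  rw [Matrix.mul_apply, Matrix.one_apply] at this
  exact this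

lemma inv_mul {ℓ : Fin 3 → Fin 3 → ℂ} (hℓ : LinearIndependent ℂ ℓ) (i j : Fin 3) :
    ∑ k, inv ℓ i k * ℓ k j = if i = j then 1 else 0 := by
  have h : IsUnit (Matrix.of ℓ) := Matrix.linearIndependent_rows_iff_isUnit.1 hℓ
  have h2 := Matrix.nonsing_inv_mul (Matrix.of ℓ) ((Matrix.isUnit_iff_isUnit_det _).1 h)
  have := congrFun (congrFun h2 i) j
  rw [Matrix.mul_apply, Matrix.one_apply] at this
  exact this

lemma lin_single (i : Fin 3) : lin (fun j => if i = j then (1 : ℂ) else 0) = X i := by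
  unfold lin
  rw [Finset.sum_eq_single i]
  · simp
  · intro j _ hj; simp [hj.symm]
  · simp

lemma inv_sub {ℓ : Fin 3 → Fin 3 → ℂ} (hℓ : LinearIndependent ℂ ℓ) :
    (sub (inv ℓ)).comp (sub ℓ) = AlgHom.id ℂ S := by
  apply MvPolynomial.algHom_ext
  intro i
  rw [AlgHom.comp_apply, sub_X, sub_lin, AlgHom.id_apply]
  simp_rw [mul_inv hℓ]
  exact lin_single i

lemma sub_inv {ℓ : Fin 3 → Fin 3 → ℂ} (hℓ : LinearIndependent ℂ ℓ) :
    (sub ℓ).comp (sub (inv ℓ)) = AlgHom.id ℂ S := by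
  apply MvPolynomial.algHom_ext
  intro i
  rw [AlgHom.comp_apply, sub_X, sub_lin, AlgHom.id_apply]
  simp_rw [inv_mul hℓ]
  exact lin_single i

/-- The linear change of coordinates `Xᵢ ↦ lin (ℓ i)`. -/
def phi {ℓ : Fin 3 → Fin 3 → ℂ} (hℓ : LinearIndependent ℂ ℓ) : S ≃ₐ[ℂ] S :=
  AlgEquiv.ofAlgHom (sub ℓ) (sub (inv ℓ)) (sub_inv hℓ) (inv_sub hℓ)

lemma phi_X {ℓ : Fin 3 → Fin 3 → ℂ} (hℓ : LinearIndependent ℂ ℓ) (i : Fin 3) :
    phi hℓ (X i) = lin (ℓ i) := sub_X ℓ i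

/-- All exponents of `g` have weight at least `n`. -/
def Wt (w : Fin 3 → ℕ) (n : ℕ) (g : S) : Prop := ∀ e : Fin 3 →₀ ℕ, coeff e g ≠ 0 → n ≤ ∑ i, w i * e i

lemma phi_monomial {ℓ : Fin 3 → Fin 3 → ℂ} (hℓ : LinearIndependent ℂ ℓ) (e : Fin 3 →₀ ℕ) (c : ℂ) :
    phi hℓ (monomial e c) = C c * ∏ i, lin (ℓ i) ^ e i := by
  rw [monomial_eq, map_mul, Finsupp.prod_fintype _ _ (fun i => pow_zero _), map_prod]
  simp only [map_pow, phi_X]
  congr 1
  rw [show (C c : S) = algebraMap ℂ S c from rfl, AlgEquiv.commutes]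

lemma mem_wIdeal_iff {ℓ : Fin 3 → Fin 3 → ℂ} (hℓ : LinearIndependent ℂ ℓ) (w : Fin 3 → ℕ) (n : ℕ)
    (g : S) : phi hℓ g ∈ wIdeal ℓ w n ↔ Wt w n g := by
  constructor
  · intro h
    have h1 : wIdeal ℓ w n ≤ Ideal.comap (phi hℓ).symm.toRingEquiv.toRingHom
        (Ideal.span ((fun s => monomial s (1 : ℂ)) '' {e : Fin 3 →₀ ℕ | n ≤ ∑ i, w i * e i})) := by
      unfold wIdeal
      rw [Ideal.span_le]
      rintro _ ⟨e, he, rfl⟩
      rw [SetLike.mem_coe, Ideal.mem_comap]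
      apply Ideal.subset_span
      refine ⟨Finsupp.equivFunOnFinite.symm e, ?_, ?_⟩
      · simpa using he
      · have := phi_monomial hℓ (Finsupp.equivFunOnFinite.symm e) 1
        simp only [map_one, one_mul, Finsupp.equivFunOnFinite_symm_apply_apply] at this
        show _ = (phi hℓ).symm _
        rw [← this, AlgEquiv.symm_apply_apply]
    have h2 := h1 h
    rw [Ideal.mem_comap] at h2
    have h3 : g ∈ (Ideal.span ((fun s => monomial s (1 : ℂ)) ''
        {e : Fin 3 →₀ ℕ | n ≤ ∑ i, w i * e i})) := by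
      have : (phi hℓ).symm (phi hℓ g) = g := AlgEquiv.symm_apply_apply _ _
      rw [← this]; exact h2
    rw [mem_ideal_span_monomial_image] at h3
    intro e he
    obtain ⟨s, hs, hse⟩ := h3 e (mem_support_iff.2 he)
    refine le_trans hs (Finset.sum_le_sum fun i _ => Nat.mul_le_mul_left _ (hse i))
  · intro h
    rw [MvPolynomial.as_sum g, map_sum]
    refine Ideal.sum_mem _ fun e he => ?_
    rw [phi_monomial]
    apply Ideal.mul_mem_left
    apply Ideal.subset_span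
    exact ⟨e, h e (mem_support_iff.1 he), rfl⟩

/-! ### The valuation -/

/-- `S → K((T))`, `Xᵢ ↦ ℓᵢ T^(wᵢ)`. -/
def sig0 (ℓ : Fin 3 → Fin 3 → ℂ) (w : Fin 3 → ℕ) : S →+* HahnSeries ℤ K :=
  eval₂Hom (HahnSeries.C.comp ((algebraMap S K).comp C))
    fun i => HahnSeries.single ((w i : ℕ) : ℤ) (algebraMap S K (lin (ℓ i)))

lemma sig0_monomial {ℓ : Fin 3 → Fin 3 → ℂ} (hℓ : LinearIndependent ℂ ℓ) (w : Fin 3 → ℕ)
    (e : Fin 3 →₀ ℕ) (c : ℂ) :
    sig0 ℓ w (monomial e c) = HahnSeries.single (((∑ i, w i * e i : ℕ)) : ℤ)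
      (algebraMap S K (phi hℓ (monomial e c))) := by
  rw [phi_monomial, monomial_eq, map_mul, Finsupp.prod_fintype _ _ (fun i => pow_zero _), map_prod]
  simp only [map_pow]
  have h1 : ∀ i, sig0 ℓ w (X i) =
    HahnSeries.single ((w i : ℕ) : ℤ) (algebraMap S K (lin (ℓ i))) := fun i => by simp [sig0]
  have h2 : sig0 ℓ w (C c) = HahnSeries.single (0 : ℤ) (algebraMap S K (C c)) := by
    simp [sig0, HahnSeries.C]
  rw [h2]
  simp only [h1, HahnSeries.single_pow, Fin.prod_univ_three, HahnSeries.single_mul_single, map_mul,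
    map_pow, Fin.sum_univ_three]
  congr 1
  · push_cast
    simp only [nsmul_eq_mul]
    ring_nf

lemma sig0_coeff {ℓ : Fin 3 → Fin 3 → ℂ} (hℓ : LinearIndependent ℂ ℓ) (w : Fin 3 → ℕ) (g : S)
    (m : ℤ) : (sig0 ℓ w g).coeff m =
      algebraMap S K (phi hℓ (∑ e ∈ g.support.filter (fun e => ((∑ i, w i * e i : ℕ) : ℤ) = m),
        monomial e (coeff e g))) := by
  conv_lhs => rw [MvPolynomial.as_sum g]
  rw [map_sum, HahnSeries.coeff_sum, map_sum, map_sum, Finset.sum_filter]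
  refine Finset.sum_congr rfl fun e _ => ?_
  rw [sig0_monomial hℓ]
  split_ifs with h
  · rw [← h, HahnSeries.coeff_single_same]
  · rw [HahnSeries.coeff_single_of_ne (Ne.symm h)]

lemma sig0_coeff_eq_zero {ℓ : Fin 3 → Fin 3 → ℂ} (hℓ : LinearIndependent ℂ ℓ) (w : Fin 3 → ℕ)
    (g : S) (m : ℤ) : (sig0 ℓ w g).coeff m = 0 ↔
      ∀ e : Fin 3 →₀ ℕ, coeff e g ≠ 0 → ((∑ i, w i * e i : ℕ) : ℤ) ≠ m := by
  rw [sig0_coeff hℓ, (injective_iff_map_eq_zero' (algebraMap S K)).1 (IsFractionRing.injective S K),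
    (injective_iff_map_eq_zero' (phi hℓ)).1 (phi hℓ).injective]
  constructor
  · intro h e he hm
    have := congrArg (coeff e) h
    rw [coeff_sum, coeff_zero, Finset.sum_eq_single e] at this
    · rw [coeff_monomial, if_pos rfl] at this; exact he this
    · intro b _ hb; rw [coeff_monomial, if_neg hb]
    · intro hn
      exfalso
      exact hn (Finset.mem_filter.2 ⟨mem_support_iff.2 he, hm⟩)
  · intro h
    apply Finset.sum_eq_zero
    intro e he
    rw [Finset.mem_filter, mem_support_iff] at he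
    exact absurd he.2 (h e he.1)

lemma sig0_inj {ℓ : Fin 3 → Fin 3 → ℂ} (hℓ : LinearIndependent ℂ ℓ) (w : Fin 3 → ℕ) :
    Function.Injective (sig0 ℓ w) := by
  rw [injective_iff_map_eq_zero]
  intro g hg
  ext e
  by_contra he
  rw [coeff_zero] at he
  have := (sig0_coeff_eq_zero hℓ w g ((∑ i, w i * e i : ℕ) : ℤ)).1 (by rw [hg]; rfl) e he
  exact this rfl

lemma le_orderTop_sig0 {ℓ : Fin 3 → Fin 3 → ℂ} (hℓ : LinearIndependent ℂ ℓ) (w : Fin 3 → ℕ)
    (g : S) (n : ℕ) : ((n : ℤ) : WithTop ℤ) ≤ (sig0 ℓ w g).orderTop ↔ Wt w n g := by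
  constructor
  · intro h e he
    have h1 : (sig0 ℓ w g).coeff ((∑ i, w i * e i : ℕ) : ℤ) ≠ 0 := by
      rw [Ne, sig0_coeff_eq_zero hℓ]
      push Not
      exact ⟨e, he, rfl⟩
    have h2 := h.trans (HahnSeries.orderTop_le_of_coeff_ne_zero h1)
    exact_mod_cast h2
  · intro h
    by_contra hlt
    rw [not_le] at hlt
    have hne : sig0 ℓ w g ≠ 0 := by
      intro h0
      rw [h0, HahnSeries.orderTop_zero] at hlt
      exact absurd hlt (by simp)
    have h3 := HahnSeries.coeff_orderTop_ne (x := sig0 ℓ w g) (g := (sig0 ℓ w g).order)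
      (HahnSeries.order_eq_orderTop_of_ne_zero hne).symm
    rw [Ne, sig0_coeff_eq_zero hℓ] at h3
    push Not at h3
    obtain ⟨e, he, hm⟩ := h3
    have h4 := h e he
    rw [← HahnSeries.order_eq_orderTop_of_ne_zero hne, ← hm] at hlt
    have : ((∑ i, w i * e i : ℕ) : ℤ) < (n : ℤ) := by exact_mod_cast hlt
    omega

/-- The ring homomorphism `K → K((T))` with `ℓᵢ ↦ ℓᵢ T^(wᵢ)`. -/
def sigS {ℓ : Fin 3 → Fin 3 → ℂ} (hℓ : LinearIndependent ℂ ℓ) (w : Fin 3 → ℕ) :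
    S →+* HahnSeries ℤ K :=
  (sig0 ℓ w).comp ((phi hℓ).symm : S ≃ₐ[ℂ] S).toRingEquiv.toRingHom

lemma sigS_phi {ℓ : Fin 3 → Fin 3 → ℂ} (hℓ : LinearIndependent ℂ ℓ) (w : Fin 3 → ℕ) (g : S) :
    sigS hℓ w (phi hℓ g) = sig0 ℓ w g := by
  show sig0 ℓ w ((phi hℓ).symm (phi hℓ g)) = _
  rw [AlgEquiv.symm_apply_apply]

lemma sigS_inj {ℓ : Fin 3 → Fin 3 → ℂ} (hℓ : LinearIndependent ℂ ℓ) (w : Fin 3 → ℕ) :
    Function.Injective (sigS hℓ w) := by
  intro a b h
  obtain ⟨a, rfl⟩ := (phi hℓ).surjective a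
  obtain ⟨b, rfl⟩ := (phi hℓ).surjective b
  rw [sigS_phi, sigS_phi] at h
  rw [sig0_inj hℓ w h]

def sigK {ℓ : Fin 3 → Fin 3 → ℂ} (hℓ : LinearIndependent ℂ ℓ) (w : Fin 3 → ℕ) :
    K →+* HahnSeries ℤ K :=
  IsLocalization.lift (M := nonZeroDivisors S) (g := sigS hℓ w) fun y =>
    (isUnit_iff_ne_zero (G₀ := HahnSeries ℤ K)).2 fun h0 => nonZeroDivisors.ne_zero y.2
      ((injective_iff_map_eq_zero (sigS hℓ w)).1 (sigS_inj hℓ w) _ h0)

lemma sigK_phi {ℓ : Fin 3 → Fin 3 → ℂ} (hℓ : LinearIndependent ℂ ℓ) (w : Fin 3 → ℕ) (g : S) :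
    sigK hℓ w (algebraMap S K (phi hℓ g)) = sig0 ℓ w g := by
  unfold sigK
  rw [IsLocalization.lift_eq, sigS_phi]

/-- The monomial valuation. -/
def val {ℓ : Fin 3 → Fin 3 → ℂ} (hℓ : LinearIndependent ℂ ℓ) (w : Fin 3 → ℕ) :
    AddValuation K (WithTop ℤ) := (HahnSeries.addVal ℤ K).comap (sigK hℓ w)

lemma val_apply {ℓ : Fin 3 → Fin 3 → ℂ} (hℓ : LinearIndependent ℂ ℓ) (w : Fin 3 → ℕ) (f : K) :
    val hℓ w f = (sigK hℓ w f).orderTop := rfl

lemma le_val_phi {ℓ : Fin 3 → Fin 3 → ℂ} (hℓ : LinearIndependent ℂ ℓ) (w : Fin 3 → ℕ)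
    (g : S) (n : ℕ) :
    ((n : ℤ) : WithTop ℤ) ≤ val hℓ w (algebraMap S K (phi hℓ g)) ↔ Wt w n g := by
  rw [val_apply, sigK_phi, le_orderTop_sig0 hℓ]

lemma le_val_iff {ℓ : Fin 3 → Fin 3 → ℂ} (hℓ : LinearIndependent ℂ ℓ) (w : Fin 3 → ℕ)
    (f : S) (n : ℕ) :
    ((n : ℤ) : WithTop ℤ) ≤ val hℓ w (algebraMap S K f) ↔ f ∈ wIdeal ℓ w n := by
  obtain ⟨g, rfl⟩ := (phi hℓ).surjective f
  rw [le_val_phi, mem_wIdeal_iff]

/-! ### The derivations `d/dℓⱼ` -/

/-- The derivation `d/dℓⱼ` of `K`. -/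
def D (ℓ : Fin 3 → Fin 3 → ℂ) (j : Fin 3) (f : K) : K :=
  ∑ k, algebraMap S K (C (inv ℓ k j)) * pd k f

lemma D_mul (ℓ : Fin 3 → Fin 3 → ℂ) (j : Fin 3) (f g : K) :
    D ℓ j (f * g) = f * D ℓ j g + g * D ℓ j f := by
  simp only [D, pd_mul', Fin.sum_univ_three]
  ring

lemma D_add (ℓ : Fin 3 → Fin 3 → ℂ) (j : Fin 3) (f g : K) :
    D ℓ j (f + g) = D ℓ j f + D ℓ j g := by
  simp only [D, pd_add', Fin.sum_univ_three]
  ring

lemma D_zero (ℓ : Fin 3 → Fin 3 → ℂ) (j : Fin 3) : D ℓ j 0 = 0 := by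
  have := D_add ℓ j 0 0
  rw [add_zero] at this
  exact (left_eq_add.1 this)

lemma pderiv_lin (k : Fin 3) (b : Fin 3 → ℂ) : pderiv k (lin b) = C (b k) := by
  unfold lin
  rw [map_sum, Finset.sum_eq_single k]
  · rw [pderiv_C_mul, pderiv_X_self, mul_one]
  · intro j _ hj; rw [pderiv_C_mul, pderiv_X_of_ne hj, mul_zero]
  · simp

lemma D_lin {ℓ : Fin 3 → Fin 3 → ℂ} (hℓ : LinearIndependent ℂ ℓ) (j i : Fin 3) :
    D ℓ j (algebraMap S K (lin (ℓ i))) = if i = j then 1 else 0 := by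
  unfold D
  simp_rw [pd_algebraMap', pderiv_lin, ← map_mul]
  rw [← map_sum, ← map_sum]
  have := mul_inv hℓ i j
  simp_rw [mul_comm (ℓ i _)] at this
  rw [this]
  split_ifs <;> simp

lemma D_phi {ℓ : Fin 3 → Fin 3 → ℂ} (hℓ : LinearIndependent ℂ ℓ) (j : Fin 3) (g : S) :
    D ℓ j (algebraMap S K (phi hℓ g)) = algebraMap S K (phi hℓ (pderiv j g)) := by
  induction g using MvPolynomial.induction_on with
  | C a =>
    rw [pderiv_C, map_zero, map_zero, show (C a : S) = algebraMap ℂ S a from rfl,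
      AlgEquiv.commutes]
    unfold D
    simp_rw [show (algebraMap ℂ S a : S) = C a from rfl, pd_algebraMap', pderiv_C]
    simp
  | add p q hp hq => simp only [map_add, D_add, hp, hq]
  | mul_X p i hp =>
    rw [map_mul, map_mul, D_mul, hp, phi_X, D_lin hℓ, pderiv_mul, map_add, map_add, map_mul,
      map_mul, map_mul, map_mul, phi_X]
    by_cases h : i = j
    · subst h; simp; ring
    · simp [h, pderiv_X_of_ne h]; ring

/-- `θⱼ = ℓⱼ d/dℓⱼ`. -/
def th (ℓ : Fin 3 → Fin 3 → ℂ) (j : Fin 3) (f : K) : K :=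
  algebraMap S K (lin (ℓ j)) * D ℓ j f

lemma th_phi {ℓ : Fin 3 → Fin 3 → ℂ} (hℓ : LinearIndependent ℂ ℓ) (j : Fin 3) (g : S) :
    th ℓ j (algebraMap S K (phi hℓ g)) = algebraMap S K (phi hℓ (X j * pderiv j g)) := by
  rw [th, D_phi, ← phi_X hℓ, map_mul, map_mul]

lemma th_mul (ℓ : Fin 3 → Fin 3 → ℂ) (j : Fin 3) (f g : K) :
    th ℓ j (f * g) = f * th ℓ j g + g * th ℓ j f := by
  simp only [th, D_mul]; ring

lemma coeff_theta (j : Fin 3) (g : S) (e : Fin 3 →₀ ℕ) :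
    coeff e (X j * pderiv j g) = (e j : ℂ) * coeff e g := by
  induction g using MvPolynomial.induction_on' with
  | monomial m r =>
    rw [X_mul_pderiv_monomial, coeff_smul, coeff_monomial]
    split_ifs with h
    · subst h; simp
    · simp
  | add p q hp hq => rw [map_add, mul_add, coeff_add, hp, hq, coeff_add]; ring

lemma Wt_theta {w : Fin 3 → ℕ} {n : ℕ} {g : S} (h : Wt w n g) (j : Fin 3) :
    Wt w n (X j * pderiv j g) := by
  intro e he
  rw [coeff_theta] at he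
  exact h e (right_ne_zero_of_mul he)

/-- The Euler operator on polynomials. -/
def eu (w : Fin 3 → ℕ) (g : S) : S := ∑ j, C (w j : ℂ) * (X j * pderiv j g)

lemma coeff_eu (w : Fin 3 → ℕ) (g : S) (e : Fin 3 →₀ ℕ) :
    coeff e (eu w g) = ((∑ i, w i * e i : ℕ) : ℂ) * coeff e g := by
  unfold eu
  rw [coeff_sum]
  simp_rw [coeff_C_mul, coeff_theta]
  push_cast
  rw [Finset.sum_mul]
  refine Finset.sum_congr rfl fun i _ => ?_
  ring

lemma Wt_eu {w : Fin 3 → ℕ} {n : ℕ} {g : S} (h : Wt w n g) :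
    Wt w (n + 1) (eu w g - C (n : ℂ) * g) := by
  intro e he
  rw [coeff_sub, coeff_eu, coeff_C_mul, ← sub_mul] at he
  have h1 := h e (right_ne_zero_of_mul he)
  have h2 : (∑ i, w i * e i) ≠ n := by
    intro h3
    apply left_ne_zero_of_mul he
    rw [h3, sub_self]
  omega

/-- The Euler operator on `K`. -/
def Eu (ℓ : Fin 3 → Fin 3 → ℂ) (w : Fin 3 → ℕ) (f : K) : K := ∑ j, (w j : K) * th ℓ j f

lemma Eu_phi {ℓ : Fin 3 → Fin 3 → ℂ} (hℓ : LinearIndependent ℂ ℓ) (w : Fin 3 → ℕ) (g : S) :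
    Eu ℓ w (algebraMap S K (phi hℓ g)) = algebraMap S K (phi hℓ (eu w g)) := by
  unfold Eu eu
  rw [map_sum, map_sum]
  refine Finset.sum_congr rfl fun j _ => ?_
  rw [th_phi, map_mul (phi hℓ) (C (w j : ℂ)), map_mul (algebraMap S K) (phi hℓ (C (w j : ℂ)))]
  congr 1
  rw [show (C (w j : ℂ) : S) = ((w j : ℕ) : S) by simp, map_natCast, map_natCast]

lemma Eu_mul (ℓ : Fin 3 → Fin 3 → ℂ) (w : Fin 3 → ℕ) (f g : K) :
    Eu ℓ w (f * g) = f * Eu ℓ w g + g * Eu ℓ w f := by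
  simp only [Eu, th_mul, Fin.sum_univ_three]; ring

lemma cancel (v : AddValuation K (WithTop ℤ)) {Q x : K} {n k : ℤ} (hQ : v Q = (n : WithTop ℤ))
    (h : ((2 * n + k : ℤ) : WithTop ℤ) ≤ v (Q * Q * x)) : ((k : ℤ) : WithTop ℤ) ≤ v x := by
  rw [v.map_mul, v.map_mul, hQ] at h
  cases hx : v x with
  | top => exact le_top
  | coe z =>
    rw [hx] at h
    have h' : (2 * n + k : ℤ) ≤ n + n + z := by exact_mod_cast h
    have : k ≤ z := by omega
    exact_mod_cast this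

lemma zero_le_val {ℓ : Fin 3 → Fin 3 → ℂ} (hℓ : LinearIndependent ℂ ℓ) (w : Fin 3 → ℕ) (f : S) :
    0 ≤ val hℓ w (algebraMap S K f) := by
  obtain ⟨g, rfl⟩ := (phi hℓ).surjective f
  have := (le_val_phi hℓ w g 0).2 (fun e _ => Nat.zero_le _)
  exact_mod_cast this

lemma exists_nat_val {ℓ : Fin 3 → Fin 3 → ℂ} (hℓ : LinearIndependent ℂ ℓ) (w : Fin 3 → ℕ) {f : S}
    (hf : f ≠ 0) : ∃ n : ℕ, val hℓ w (algebraMap S K f) = ((n : ℤ) : WithTop ℤ) := by
  have h0 := zero_le_val hℓ w f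
  have h1 : val hℓ w (algebraMap S K f) ≠ ⊤ := by
    rw [Ne, AddValuation.top_iff]
    intro h
    exact hf ((injective_iff_map_eq_zero (algebraMap S K)).1 (IsFractionRing.injective S K) _ h)
  obtain ⟨z, hz⟩ := WithTop.ne_top_iff_exists.1 h1
  rw [← hz] at h0 ⊢
  have : 0 ≤ z := by exact_mod_cast h0
  exact ⟨z.toNat, by rw [Int.toNat_of_nonneg this]⟩

lemma main {ℓ : Fin 3 → Fin 3 → ℂ} (hℓ : LinearIndependent ℂ ℓ) (w : Fin 3 → ℕ) (f : K)
    (hf : 0 ≤ val hℓ w f) :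
    (∀ j, 0 ≤ val hℓ w (th ℓ j f)) ∧ 1 ≤ val hℓ w (Eu ℓ w f) := by
  obtain ⟨p', q', hq', rfl⟩ := IsFractionRing.div_surjective (A := S) f
  obtain ⟨p, rfl⟩ := (phi hℓ).surjective p'
  obtain ⟨q, rfl⟩ := (phi hℓ).surjective q'
  have hq0 : phi hℓ q ≠ 0 := nonZeroDivisors.ne_zero hq'
  by_cases hp0 : phi hℓ p = 0
  · rw [hp0, map_zero, zero_div]
    constructor
    · intro j
      rw [th, D_zero, mul_zero, AddValuation.map_zero]; exact le_top
    · have : Eu ℓ w 0 = 0 := by simp [Eu, th, D_zero]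
      rw [this, AddValuation.map_zero]; exact le_top
  obtain ⟨m, hm⟩ := exists_nat_val hℓ w hp0
  obtain ⟨n, hn⟩ := exists_nat_val hℓ w hq0
  set P := algebraMap S K (phi hℓ p) with hP
  set Q := algebraMap S K (phi hℓ q) with hQ
  have hQ0 : Q ≠ 0 := fun h => hq0
    ((injective_iff_map_eq_zero (algebraMap S K)).1 (IsFractionRing.injective S K) _ h)
  have hfQ : P / Q * Q = P := div_mul_cancel₀ _ hQ0
  have hnm : n ≤ m := by
    have h1 : val hℓ w (P / Q) + ((n : ℤ) : WithTop ℤ) = ((m : ℤ) : WithTop ℤ) := by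
      rw [← hn, ← hm, ← AddValuation.map_mul, hfQ]
    have h2 : ((n : ℤ) : WithTop ℤ) ≤ ((m : ℤ) : WithTop ℤ) := by
      rw [← h1]
      calc ((n : ℤ) : WithTop ℤ) = 0 + ((n : ℤ) : WithTop ℤ) := (zero_add _).symm
        _ ≤ _ := by gcongr
    exact_mod_cast h2
  have hWp : Wt w m p := (le_val_phi hℓ w p m).1 hm.ge
  have hWq : Wt w n q := (le_val_phi hℓ w q n).1 hn.ge
  constructor
  · intro j
    have e1 : Q * Q * th ℓ j (P / Q) = Q * th ℓ j P - P * th ℓ j Q := by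
      have := th_mul ℓ j (P / Q) Q
      rw [hfQ] at this
      rw [this]
      linear_combination (-(th ℓ j Q)) * hfQ
    have e2 : ((2 * (n : ℤ) + 0 : ℤ) : WithTop ℤ) ≤ val hℓ w (Q * Q * th ℓ j (P / Q)) := by
      rw [e1]
      have a1 : ((m : ℤ) : WithTop ℤ) ≤ val hℓ w (th ℓ j P) := by
        rw [hP, th_phi]; exact (le_val_phi hℓ w _ m).2 (Wt_theta hWp j)
      have a2 : ((n : ℤ) : WithTop ℤ) ≤ val hℓ w (th ℓ j Q) := by
        rw [hQ, th_phi]; exact (le_val_phi hℓ w _ n).2 (Wt_theta hWq j)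
      have b0 : ((2 * (n : ℤ) + 0 : ℤ) : WithTop ℤ) ≤ ((n : ℤ) : WithTop ℤ) + ((m : ℤ) : WithTop ℤ) := by
        have : (2 * (n : ℤ) + 0 : ℤ) ≤ n + m := by omega
        exact_mod_cast this
      refine le_trans ?_ (AddValuation.map_sub _ _ _)
      rw [AddValuation.map_mul, AddValuation.map_mul, hn, hm]
      apply le_min
      · exact b0.trans (by gcongr)
      · exact b0.trans (by rw [add_comm]; gcongr)
    have := cancel (val hℓ w) hn e2
    exact_mod_cast this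
  · have e1 : Q * Q * Eu ℓ w (P / Q) =
        Q * (Eu ℓ w P - (m : K) * P) - P * (Eu ℓ w Q - (n : K) * Q) + ((m : K) - n) * (P * Q) := by
      have := Eu_mul ℓ w (P / Q) Q
      rw [hfQ] at this
      rw [this]
      linear_combination (-(Eu ℓ w Q)) * hfQ
    have c1 : (((m + 1 : ℕ) : ℤ) : WithTop ℤ) ≤ val hℓ w (Eu ℓ w P - (m : K) * P) := by
      have : Eu ℓ w P - (m : K) * P = algebraMap S K (phi hℓ (eu w p - C (m : ℂ) * p)) := by
        rw [hP, Eu_phi, map_sub, map_sub, map_mul, map_mul,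
          show (C (m : ℂ) : S) = ((m : ℕ) : S) by simp, map_natCast, map_natCast]
      rw [this]
      exact (le_val_phi hℓ w _ _).2 (Wt_eu hWp)
    have c2 : (((n + 1 : ℕ) : ℤ) : WithTop ℤ) ≤ val hℓ w (Eu ℓ w Q - (n : K) * Q) := by
      have : Eu ℓ w Q - (n : K) * Q = algebraMap S K (phi hℓ (eu w q - C (n : ℂ) * q)) := by
        rw [hQ, Eu_phi, map_sub, map_sub, map_mul, map_mul,
          show (C (n : ℂ) : S) = ((n : ℕ) : S) by simp, map_natCast, map_natCast]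
      rw [this]
      exact (le_val_phi hℓ w _ _).2 (Wt_eu hWq)
    have e2 : ((2 * (n : ℤ) + 1 : ℤ) : WithTop ℤ) ≤ val hℓ w (Q * Q * Eu ℓ w (P / Q)) := by
      rw [e1]
      refine le_trans ?_ (AddValuation.map_add _ _ _)
      apply le_min
      · refine le_trans ?_ (AddValuation.map_sub _ _ _)
        rw [AddValuation.map_mul, AddValuation.map_mul, hn, hm]
        apply le_min
        · calc ((2 * (n : ℤ) + 1 : ℤ) : WithTop ℤ)
              ≤ ((n : ℤ) : WithTop ℤ) + (((m + 1 : ℕ) : ℤ) : WithTop ℤ) := by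
                have : (2 * (n : ℤ) + 1 : ℤ) ≤ n + ((m + 1 : ℕ) : ℤ) := by push_cast; omega
                exact_mod_cast this
            _ ≤ _ := by gcongr
        · calc ((2 * (n : ℤ) + 1 : ℤ) : WithTop ℤ)
              ≤ ((m : ℤ) : WithTop ℤ) + (((n + 1 : ℕ) : ℤ) : WithTop ℤ) := by
                have : (2 * (n : ℤ) + 1 : ℤ) ≤ m + ((n + 1 : ℕ) : ℤ) := by push_cast; omega
                exact_mod_cast this
            _ ≤ _ := by gcongr
      · by_cases hmn : m = n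
        · subst hmn
          rw [sub_self, zero_mul, AddValuation.map_zero]; exact le_top
        · rw [AddValuation.map_mul, AddValuation.map_mul, hn, hm]
          have d1 : 0 ≤ val hℓ w ((m : K) - n) := by
            have : ((m : K) - n) = algebraMap S K ((m : S) - n) := by simp
            rw [this]; exact zero_le_val hℓ w _
          calc ((2 * (n : ℤ) + 1 : ℤ) : WithTop ℤ)
              ≤ 0 + (((m : ℤ) : WithTop ℤ) + ((n : ℤ) : WithTop ℤ)) := by
                rw [zero_add]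
                have : (2 * (n : ℤ) + 1 : ℤ) ≤ m + n := by omega
                exact_mod_cast this
            _ ≤ _ := by gcongr
    have := cancel (val hℓ w) hn e2
    exact_mod_cast this

/-! ### Determinants -/

lemma le_det (v : AddValuation K (WithTop ℤ)) (A : Matrix (Fin 3) (Fin 3) K) (i₀ : Fin 3)
    (h0 : ∀ i j, 0 ≤ v (A i j)) (h1 : ∀ i, 1 ≤ v (A i i₀)) : 1 ≤ v A.det := by
  rw [Matrix.det_apply]
  apply AddValuation.map_le_sum
  intro σ _
  have h2 : v (Equiv.Perm.sign σ • ∏ i, A (σ i) i) = v (∏ i, A (σ i) i) := by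
    rcases Int.units_eq_one_or (Equiv.Perm.sign σ) with h | h
    · rw [h, one_smul]
    · rw [h, Units.neg_smul, one_smul, AddValuation.map_neg]
  rw [h2, ← Finset.mul_prod_erase _ _ (Finset.mem_univ i₀), AddValuation.map_mul]
  have h3 : 0 ≤ v (∏ i ∈ Finset.univ.erase i₀, A (σ i) i) := by
    apply Finset.prod_induction _ (fun x => 0 ≤ v x)
    · intro a b ha hb; rw [AddValuation.map_mul]; exact add_nonneg ha hb
    · rw [AddValuation.map_one]
    · intro i _; exact h0 _ _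
  calc (1 : WithTop ℤ) = 1 + 0 := (add_zero _).symm
    _ ≤ _ := by
      gcongr
      exact h1 _

lemma jac_eq {ℓ : Fin 3 → Fin 3 → ℂ} (hℓ : LinearIndependent ℂ ℓ) (h : Fin 3 → K) :
    jac h * ∏ j, algebraMap S K (lin (ℓ j)) =
      (Matrix.of fun i j => th ℓ j (h i)).det * algebraMap S K (C (Matrix.of ℓ).det) := by
  have h1 : (Matrix.of fun i j => pd j (h i)) = (Matrix.of fun i j => D ℓ j (h i)) *
      ((C.comp (RingHom.id ℂ)).mapMatrix (Matrix.of ℓ)).map (algebraMap S K) := by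
    ext i k
    rw [Matrix.mul_apply]
    simp only [Matrix.of_apply, D, RingHom.mapMatrix_apply, Matrix.map_apply, RingHom.comp_apply,
      RingHom.id_apply]
    simp_rw [Finset.sum_mul]
    rw [Finset.sum_comm]
    have : ∀ m, ∑ x, algebraMap S K (C (inv ℓ m x)) * pd m (h i) * algebraMap S K (C (ℓ x k)) =
        if m = k then pd m (h i) else 0 := by
      intro m
      have h2 := congrArg (fun z => algebraMap S K (C z)) (inv_mul hℓ m k)
      simp only [map_sum, map_mul] at h2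
      calc _ = (∑ x, algebraMap S K (C (inv ℓ m x)) * algebraMap S K (C (ℓ x k))) *
            pd m (h i) := by
            rw [Finset.sum_mul]
            exact Finset.sum_congr rfl fun x _ => by ring
        _ = _ := by
          rw [h2]
          split_ifs <;> simp
    simp_rw [this]
    simp
  have h2 : jac h = (Matrix.of fun i j => D ℓ j (h i)).det * algebraMap S K (C (Matrix.of ℓ).det) := by
    unfold jac
    rw [h1, Matrix.det_mul]
    congr 1
    rw [← RingHom.mapMatrix_apply, ← RingHom.map_det, ← RingHom.map_det]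
    rfl
  have h3 : (Matrix.of fun i j => th ℓ j (h i)).det =
      (∏ j, algebraMap S K (lin (ℓ j))) * (Matrix.of fun i j => D ℓ j (h i)).det := by
    rw [← Matrix.det_mul_row]
    rfl
  rw [h2, h3]
  ring

lemma val_lin {ℓ : Fin 3 → Fin 3 → ℂ} (hℓ : LinearIndependent ℂ ℓ) (w : Fin 3 → ℕ) (i : Fin 3) :
    val hℓ w (algebraMap S K (lin (ℓ i))) = ((w i : ℕ) : ℤ) := by
  rw [← phi_X hℓ, val_apply, sigK_phi]
  have h1 : sig0 ℓ w (X i) =
    HahnSeries.single ((w i : ℕ) : ℤ) (algebraMap S K (lin (ℓ i))) := by simp [sig0]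
  rw [h1, HahnSeries.orderTop_single]
  · intro h
    have h2 := (injective_iff_map_eq_zero (algebraMap S K)).1 (IsFractionRing.injective S K) _ h
    rw [← phi_X hℓ] at h2
    have h3 := (injective_iff_map_eq_zero (phi hℓ)).1 (phi hℓ).injective _ h2
    exact X_ne_zero i h3

lemma val_jac {ℓ : Fin 3 → Fin 3 → ℂ} (hℓ : LinearIndependent ℂ ℓ) (w : Fin 3 → ℕ)
    (i₀ : Fin 3) (hw : w i₀ = 1) (h : Fin 3 → K) (hh : ∀ i, 0 ≤ val hℓ w (h i)) :
    1 ≤ val hℓ w (jac h) + (((∑ i, w i : ℕ) : ℤ) : WithTop ℤ) := by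
  have e1 : val hℓ w (∏ j, algebraMap S K (lin (ℓ j))) = (((∑ i, w i : ℕ) : ℤ) : WithTop ℤ) := by
    rw [Fin.prod_univ_three, AddValuation.map_mul, AddValuation.map_mul, val_lin, val_lin, val_lin,
      Fin.sum_univ_three]
    push_cast
    rfl
  rw [← e1, ← AddValuation.map_mul, jac_eq hℓ, AddValuation.map_mul]
  have e2 : 1 ≤ val hℓ w (Matrix.of fun i j => th ℓ j (h i)).det := by
    set B : Matrix (Fin 3) (Fin 3) K := Matrix.of fun i j => th ℓ j (h i) with hB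
    have e3 := Matrix.det_updateCol_sum B i₀ (fun j => (w j : K))
    rw [hw, Nat.cast_one, one_smul] at e3
    rw [← e3]
    have e4 : ∀ k, ∑ i, (w i : K) • B k i = Eu ℓ w (h k) := fun k => rfl
    apply le_det _ _ i₀
    · intro i j
      by_cases hj : j = i₀
      · subst hj
        rw [Matrix.updateCol_self, e4]
        exact le_trans (by exact_mod_cast zero_le_one) (main hℓ w (h i) (hh i)).2
      · rw [Matrix.updateCol_ne hj]
        exact (main hℓ w (h i) (hh i)).1 j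
    · intro i
      rw [Matrix.updateCol_self, e4]
      exact (main hℓ w (h i) (hh i)).2
  have e5 := zero_le_val hℓ w (C (Matrix.of ℓ).det)
  calc (1 : WithTop ℤ) = 1 + 0 := (add_zero _).symm
    _ ≤ _ := by gcongr

lemma logDisc_le {ℓ : Fin 3 → Fin 3 → ℂ} (hℓ : LinearIndependent ℂ ℓ) (w : Fin 3 → ℕ)
    (i₀ : Fin 3) (hw : w i₀ = 1) :
    logDisc (val hℓ w) ≤ (((w 0 + w 1 + w 2 : ℕ) : ℝ) : EReal) := by
  unfold logDisc
  refine iSup₂_le fun h hh => ?_
  have h1 := val_jac hℓ w i₀ hw h hh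
  cases hx : val hℓ w (jac h) with
  | top => 
    show (1 : EReal) - ⊤ ≤ _
    simp
  | coe z =>
    rw [hx] at h1
    have h2 : (1 : ℤ) ≤ z + ((∑ i, w i : ℕ) : ℤ) := by exact_mod_cast h1
    show (1 : EReal) - ((z : ℝ) : EReal) ≤ _
    rw [Fin.sum_univ_three] at h2
    have h3 : (1 : ℝ) - z ≤ ((w 0 + w 1 + w 2 : ℕ) : ℝ) := by
      have : (1 : ℝ) ≤ z + ((w 0 + w 1 + w 2 : ℕ) : ℝ) := by exact_mod_cast h2
      linarith
    exact_mod_cast h3

/-! ### The residue field -/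

lemma exists_num {ℓ : Fin 3 → Fin 3 → ℂ} (hℓ : LinearIndependent ℂ ℓ) (w : Fin 3 → ℕ) (i₀ : Fin 3)
    (P : MvPolynomial (Fin 2) ℂ) :
    ∃ (N : ℕ) (Q : S), algebraMap S K (phi hℓ Q) = algebraMap S K (lin (ℓ i₀)) ^ N *
        aeval (fun m : Fin 2 => algebraMap S K (lin (ℓ (i₀.succAbove m))) /
          algebraMap S K (lin (ℓ i₀)) ^ w (i₀.succAbove m)) P ∧
      aeval (i₀.insertNth (1 : MvPolynomial (Fin 2) ℂ) fun m => X m) Q = P := by
  have hL : algebraMap S K (lin (ℓ i₀)) ≠ 0 := by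
    intro h
    have h2 := (injective_iff_map_eq_zero (algebraMap S K)).1 (IsFractionRing.injective S K) _ h
    rw [← phi_X hℓ] at h2
    exact X_ne_zero i₀ ((injective_iff_map_eq_zero (phi hℓ)).1 (phi hℓ).injective _ h2)
  induction P using MvPolynomial.induction_on with
  | C c =>
    refine ⟨0, C c, ?_, ?_⟩
    · rw [pow_zero, one_mul, show (C c : S) = algebraMap ℂ S c from rfl, AlgEquiv.commutes]
      rw [aeval_C, IsScalarTower.algebraMap_apply ℂ S K]
    · rw [aeval_C]; rfl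
  | add P₁ P₂ h₁ h₂ =>
    obtain ⟨N₁, Q₁, a₁, b₁⟩ := h₁
    obtain ⟨N₂, Q₂, a₂, b₂⟩ := h₂
    refine ⟨N₁ + N₂, X i₀ ^ N₂ * Q₁ + X i₀ ^ N₁ * Q₂, ?_, ?_⟩
    · simp only [map_add, map_mul, map_pow, phi_X, a₁, a₂]
      ring
    · simp only [map_add, map_mul, map_pow, aeval_X, Fin.insertNth_apply_same, one_pow, one_mul,
        b₁, b₂]
  | mul_X P m h =>
    obtain ⟨N, Q, a, b⟩ := h
    refine ⟨N + w (i₀.succAbove m), Q * X (i₀.succAbove m), ?_, ?_⟩
    · rw [map_mul (phi hℓ), map_mul (algebraMap S K), a, phi_X, map_mul, aeval_X, pow_add]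
      generalize (aeval (fun m : Fin 2 => algebraMap S K (lin (ℓ (i₀.succAbove m))) /
          algebraMap S K (lin (ℓ i₀)) ^ w (i₀.succAbove m)) P : K) = A
      generalize algebraMap S K (lin (ℓ (i₀.succAbove m))) = B
      field_simp
    · simp only [map_mul, aeval_X, Fin.insertNth_apply_succAbove, b]

lemma aeval_ne_zero {ℓ : Fin 3 → Fin 3 → ℂ} (hℓ : LinearIndependent ℂ ℓ) (w : Fin 3 → ℕ)
    (i₀ : Fin 3) (P : MvPolynomial (Fin 2) ℂ) (hP : P ≠ 0) :
    aeval (fun m : Fin 2 => algebraMap S K (lin (ℓ (i₀.succAbove m))) /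
          algebraMap S K (lin (ℓ i₀)) ^ w (i₀.succAbove m)) P ≠ 0 := by
  intro h
  obtain ⟨N, Q, a, b⟩ := exists_num hℓ w i₀ P
  rw [h, mul_zero] at a
  have h2 := (injective_iff_map_eq_zero (algebraMap S K)).1 (IsFractionRing.injective S K) _ a
  have h3 := (injective_iff_map_eq_zero (phi hℓ)).1 (phi hℓ).injective _ h2
  rw [h3, map_zero] at b
  exact hP b.symm

lemma sigK_C {ℓ : Fin 3 → Fin 3 → ℂ} (hℓ : LinearIndependent ℂ ℓ) (w : Fin 3 → ℕ) (c : ℂ) :
    sigK hℓ w (algebraMap ℂ K c) = HahnSeries.C (algebraMap ℂ K c) := by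
  rw [IsScalarTower.algebraMap_apply ℂ S K, ← AlgEquiv.commutes (phi hℓ), sigK_phi,
    AlgEquiv.commutes]
  simp [sig0]

lemma sigK_a {ℓ : Fin 3 → Fin 3 → ℂ} (hℓ : LinearIndependent ℂ ℓ) (w : Fin 3 → ℕ) (i₀ : Fin 3)
    (hw : w i₀ = 1) (j : Fin 3) :
    sigK hℓ w (algebraMap S K (lin (ℓ j)) / algebraMap S K (lin (ℓ i₀)) ^ w j) =
      HahnSeries.C (algebraMap S K (lin (ℓ j)) / algebraMap S K (lin (ℓ i₀)) ^ w j) := by
  have hL : algebraMap S K (lin (ℓ i₀)) ≠ 0 := by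
    intro h
    have h2 := (injective_iff_map_eq_zero (algebraMap S K)).1 (IsFractionRing.injective S K) _ h
    rw [← phi_X hℓ] at h2
    exact X_ne_zero i₀ ((injective_iff_map_eq_zero (phi hℓ)).1 (phi hℓ).injective _ h2)
  have hX : ∀ i, sigK hℓ w (algebraMap S K (lin (ℓ i))) =
      HahnSeries.single ((w i : ℕ) : ℤ) (algebraMap S K (lin (ℓ i))) := by
    intro i
    rw [← phi_X hℓ, sigK_phi, phi_X]; simp [sig0]
  have h1 : (algebraMap S K (lin (ℓ j)) / algebraMap S K (lin (ℓ i₀)) ^ w j) *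
      algebraMap S K (lin (ℓ i₀)) ^ w j = algebraMap S K (lin (ℓ j)) :=
    div_mul_cancel₀ _ (pow_ne_zero _ hL)
  have h2 := congrArg (sigK hℓ w) h1
  rw [map_mul, map_pow, hX, hX, HahnSeries.single_pow, hw] at h2
  have h3 : HahnSeries.C (algebraMap S K (lin (ℓ j)) / algebraMap S K (lin (ℓ i₀)) ^ w j) *
      HahnSeries.single (w j • ((1 : ℕ) : ℤ)) (algebraMap S K (lin (ℓ i₀)) ^ w j) =
      HahnSeries.single ((w j : ℕ) : ℤ) (algebraMap S K (lin (ℓ j))) := by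
    rw [HahnSeries.C_apply, HahnSeries.single_mul_single, h1]
    simp
  have h4 : HahnSeries.single (w j • ((1 : ℕ) : ℤ)) (algebraMap S K (lin (ℓ i₀)) ^ w j) ≠ 0 :=
    HahnSeries.single_ne_zero (pow_ne_zero _ hL)
  exact mul_right_cancel₀ h4 (h2.trans h3.symm)

lemma sigK_aeval {ℓ : Fin 3 → Fin 3 → ℂ} (hℓ : LinearIndependent ℂ ℓ) (w : Fin 3 → ℕ)
    (a : Fin 2 → K) (ha : ∀ m, sigK hℓ w (a m) = HahnSeries.C (a m))
    (P : MvPolynomial (Fin 2) ℂ) : sigK hℓ w (aeval a P) = HahnSeries.C (aeval a P) := by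
  induction P using MvPolynomial.induction_on with
  | C c => rw [aeval_C, sigK_C]
  | add P₁ P₂ h₁ h₂ => rw [map_add, map_add, h₁, h₂, map_add]
  | mul_X P m h => rw [map_mul, map_mul, h, aeval_X, ha, map_mul]

lemma isDivisorial {ℓ : Fin 3 → Fin 3 → ℂ} (hℓ : LinearIndependent ℂ ℓ) (w : Fin 3 → ℕ)
    (i₀ : Fin 3) (hw : w i₀ = 1) : IsDivisorial (val hℓ w) := by
  refine ⟨zero_le_val hℓ w, ⟨algebraMap S K (lin (ℓ i₀)), ?_⟩,
    fun m : Fin 2 => algebraMap S K (lin (ℓ (i₀.succAbove m))) /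
          algebraMap S K (lin (ℓ i₀)) ^ w (i₀.succAbove m), fun P hP => ?_⟩
  · rw [val_lin, hw]; rfl
  · rw [val_apply, sigK_aeval hℓ w _ (fun m => sigK_a hℓ w i₀ hw _), HahnSeries.C_apply,
      HahnSeries.orderTop_single (aeval_ne_zero hℓ w i₀ P hP)]
    rfl

end MonVal

theorem exists_monVal (ℓ : Fin 3 → Fin 3 → ℂ) (hℓ : LinearIndependent ℂ ℓ) (w : Fin 3 → ℕ)
    (i₀ : Fin 3) (hw : w i₀ = 1) :
    ∃ v : AddValuation K (WithTop ℤ), IsDivisorial v ∧
      logDisc v ≤ (((w 0 + w 1 + w 2 : ℕ) : ℝ) : EReal) ∧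
      ∀ (f : S) (n : ℕ), ((n : ℤ) : WithTop ℤ) ≤ v (algebraMap S K f) ↔ f ∈ wIdeal ℓ w n :=
  ⟨MonVal.val hℓ w, MonVal.isDivisorial hℓ w i₀ hw, MonVal.logDisc_le hℓ w i₀ hw,
    MonVal.le_val_iff hℓ w⟩

end Pool.Agent.Helper61.MI
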